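import Mathlib
import Pool.Graph.R_seed8.Results.MP_4c19c5_an.BettiCenter
import Pool.Agent.KS6_82.PH.Main
import Pool.Agent.KS6_82.PH.PK

/-!
# Non-holomorphic center distributions in every dimension `n ≥ 3`

The compact Kähler manifolds with a partially hyperbolic biholomorphism whose center distribution is
not holomorphic are stable under products with arbitrary compact connected Kähler manifolds `K` (take
`f × id`, or `f × h` with a holomorphic isometry `h` of `K`), and they exist exactly in the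
dimensions `n ≥ 3`.
-/

set_option autoImplicit false

open Filter Metric Set Topology
open scoped Manifold ContDiff

namespace Pool.Agent.Results.MP_4c19c5_an.EveryDimension

open Pool.Agent.KS6_82.PH Pool.Agent.KS6_82.Kah

/-- `M` is a compact connected complex manifold with the Kähler metric `g`, `f` is a biholomorphism
of `M` and `TM = Es ⊕ Ec ⊕ Eu` is a partially hyperbolic splitting of `f`, and the center
distribution `Ec` is not holomorphic. -/
def IsCounterexample (E : Type) [NormedAddCommGroup E] [NormedSpace ℂ E] (M : Type)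
    [TopologicalSpace M] [ChartedSpace E M] [IsManifold 𝓘(ℂ, E) ω M] (g : M → E → ℝ)
    (f : Diffeomorph 𝓘(ℂ, E) 𝓘(ℂ, E) M M ω) (Es Ec Eu : M → Submodule ℂ E) : Prop :=
  (CompactSpace M ∧ T2Space M ∧ ConnectedSpace M ∧ SecondCountableTopology M) ∧
    IsKahlerMetric g ∧ IsPartiallyHyperbolic g f Es Ec Eu ∧ ¬ IsHolomorphicSubbundle Ec

section

variable {E F : Type} [NormedAddCommGroup E] [NormedSpace ℂ E] [NormedAddCommGroup F]
  [NormedSpace ℂ F]
variable {M K : Type} [TopologicalSpace M] [ChartedSpace E M] [IsManifold 𝓘(ℂ, E) ω M]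
  [TopologicalSpace K] [ChartedSpace F K] [IsManifold 𝓘(ℂ, F) ω K]

theorem prod_counterexample [FiniteDimensional ℂ F] [CompactSpace K] [T2Space K]
    [ConnectedSpace K] [SecondCountableTopology K] {g : M → E → ℝ} {g' : K → F → ℝ}
    (hg' : IsKahlerMetric g')
    (f : Diffeomorph 𝓘(ℂ, E) 𝓘(ℂ, E) M M ω) (h : Diffeomorph 𝓘(ℂ, F) 𝓘(ℂ, F) K K ω)
    (iso : ∀ y w, g' (h y) (D F h y w) = g' y w) {Es Ec Eu : M → Submodule ℂ E}
    (H : IsCounterexample E M g f Es Ec Eu) :
    IsCounterexample (E × F) (M × K) (prodMetric g g') (prodDiffeo f h)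
      (fun p => (Es p.1).prod ⊥) (fun p => (Ec p.1).prod ⊤) (fun p => (Eu p.1).prod ⊥) := by
  obtain ⟨⟨h1, h2, h3, h4⟩, h5, h6, h7⟩ := H
  exact ⟨⟨inferInstance, inferInstance, inferInstance, inferInstance⟩,
    isKahlerMetric_prod h5 hg', h6.prod h5 hg' f h iso, 
    fun h8 => h7 (holomorphic_descent (B := fun _ => ⊤) h8)⟩

omit [IsManifold 𝓘(ℂ, F) ω K] in
theorem refl_iso (g' : K → F → ℝ) (y : K) (w : F) :
    g' ((Diffeomorph.refl 𝓘(ℂ, F) K ω) y) (D F (Diffeomorph.refl 𝓘(ℂ, F) K ω) y w) = g' y w := by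
  show g' y ((mfderiv 𝓘(ℂ, F) 𝓘(ℂ, F) id y : F →L[ℂ] F) w) = g' y w
  rw [mfderiv_id]
  rfl

theorem three_le [FiniteDimensional ℂ E] [Nonempty M] {g : M → E → ℝ} {f : M → M}
    {Es Ec Eu : M → Submodule ℂ E} (H : IsPartiallyHyperbolic g f Es Ec Eu) :
    3 ≤ Module.finrank ℂ E := by
  obtain ⟨x⟩ := ‹Nonempty M›
  obtain ⟨n1, n2, n3⟩ := H.nonzero x
  obtain ⟨a, ha, ha0⟩ := (Submodule.ne_bot_iff _).1 n1
  obtain ⟨b, hb, hb0⟩ := (Submodule.ne_bot_iff _).1 n2
  obtain ⟨c, hc, hc0⟩ := (Submodule.ne_bot_iff _).1 n3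
  have li : LinearIndependent ℂ ![a, b, c] := by
    rw [Fintype.linearIndependent_iff]
    intro t ht
    rw [Fin.sum_univ_three] at ht
    have ht' : t 0 • a + t 1 • b + t 2 • c = 0 := by simpa using ht
    obtain ⟨w, _, hw⟩ := H.splitting x 0
    have e1 := hw (t 0 • a, t 1 • b, t 2 • c)
      ⟨(Es x).smul_mem _ ha, (Ec x).smul_mem _ hb, (Eu x).smul_mem _ hc, ht'⟩
    have e2 := hw (0, 0, 0) ⟨(Es x).zero_mem, (Ec x).zero_mem, (Eu x).zero_mem, by simp⟩
    have e3 := e1.trans e2.symm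
    simp only [Prod.mk.injEq, smul_eq_zero] at e3
    intro i
    fin_cases i
    · exact e3.1.resolve_right ha0
    · exact e3.2.1.resolve_right hb0
    · exact e3.2.2.resolve_right hc0
  simpa using li.fintype_card_le_finrank

end

theorem base : ∃ (M : Type) (_ : TopologicalSpace M) (_ : ChartedSpace (ℂ × ℂ × ℂ) M)
    (_ : IsManifold 𝓘(ℂ, ℂ × ℂ × ℂ) ω M) (g : M → ℂ × ℂ × ℂ → ℝ)
    (f : Diffeomorph 𝓘(ℂ, ℂ × ℂ × ℂ) 𝓘(ℂ, ℂ × ℂ × ℂ) M M ω)
    (Es Ec Eu : M → Submodule ℂ (ℂ × ℂ × ℂ)), IsCounterexample (ℂ × ℂ × ℂ) M g f Es Ec Eu := by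
  obtain ⟨M, h1, h2, h3, h4, g, f, Es, Ec, Eu, h5, h6, h7⟩ :=
    Pool.Agent.Results.MP_4c19c5_an.BettiCenter.result
  refine ⟨M.pt, inferInstance, inferInstance, inferInstance, g, f, Es, Ec, Eu,
    ⟨h1, h2, h3, h4⟩, h5, ?_, h7⟩
  exact ⟨h6.nonzero, h6.splitting, h6.continuous, h6.invariant, h6.dominated⟩

/-- (1) The product of a counterexample with an arbitrary compact connected Kähler manifold `K` is a
counterexample, with the biholomorphism `f × h` for any biholomorphism `h` of `K` which is an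
isometry, (2) for example with `f × id`. (3) Counterexamples exist in the dimension `n` if and only
if `n ≥ 3`. -/
theorem result :
    (∀ (E F : Type) [NormedAddCommGroup E] [NormedSpace ℂ E] [NormedAddCommGroup F]
      [NormedSpace ℂ F] [FiniteDimensional ℂ F]
      (M K : Type) [TopologicalSpace M] [ChartedSpace E M] [IsManifold 𝓘(ℂ, E) ω M]
      [TopologicalSpace K] [ChartedSpace F K] [IsManifold 𝓘(ℂ, F) ω K]
      [CompactSpace K] [T2Space K] [ConnectedSpace K] [SecondCountableTopology K]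
      (g : M → E → ℝ) (f : Diffeomorph 𝓘(ℂ, E) 𝓘(ℂ, E) M M ω) (Es Ec Eu : M → Submodule ℂ E)
      (g' : K → F → ℝ), IsKahlerMetric g' → IsCounterexample E M g f Es Ec Eu →
        (∀ h : Diffeomorph 𝓘(ℂ, F) 𝓘(ℂ, F) K K ω, (∀ y w, g' (h y) (D F h y w) = g' y w) →
          IsCounterexample (E × F) (M × K) (prodMetric g g') (prodDiffeo f h)
            (fun p => (Es p.1).prod ⊥) (fun p => (Ec p.1).prod ⊤) (fun p => (Eu p.1).prod ⊥)) ∧
        IsCounterexample (E × F) (M × K) (prodMetric g g')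
          (prodDiffeo f (Diffeomorph.refl 𝓘(ℂ, F) K ω))
          (fun p => (Es p.1).prod ⊥) (fun p => (Ec p.1).prod ⊤) (fun p => (Eu p.1).prod ⊥)) ∧
    ∀ n : ℕ, (∃ (E : Type) (_ : NormedAddCommGroup E) (_ : NormedSpace ℂ E)
        (_ : FiniteDimensional ℂ E) (M : Type) (_ : TopologicalSpace M) (_ : ChartedSpace E M)
        (_ : IsManifold 𝓘(ℂ, E) ω M) (g : M → E → ℝ) (f : Diffeomorph 𝓘(ℂ, E) 𝓘(ℂ, E) M M ω)
        (Es Ec Eu : M → Submodule ℂ E),
        Module.finrank ℂ E = n ∧ IsCounterexample E M g f Es Ec Eu) ↔ 3 ≤ n := by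
  refine ⟨?_, fun n => ⟨?_, fun hn => ?_⟩⟩
  · intro E F _ _ _ _ _ M K _ _ _ _ _ _ _ _ _ _ g f Es Ec Eu g' hg' H
    exact ⟨fun h iso => prod_counterexample hg' f h iso H,
      prod_counterexample hg' f _ (refl_iso g') H⟩
  · rintro ⟨E, _, _, _, M, _, _, _, g, f, Es, Ec, Eu, hn, ⟨_, _, h3, _⟩, _, H, _⟩
    rw [← hn]
    exact three_le H
  · obtain ⟨k, rfl⟩ := Nat.exists_eq_add_of_le hn
    obtain ⟨M, _, _, _, g, f, Es, Ec, Eu, H⟩ := base
    refine ⟨(ℂ × ℂ × ℂ) × (Fin k → ℂ), inferInstance, inferInstance, inferInstance, M × PP k,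
      inferInstance, inferInstance, inferInstance, _, _, _, _, _, ?_,
      prod_counterexample (isKahlerMetric_fubiniStudy (k := k)) f
        (Diffeomorph.refl 𝓘(ℂ, Fin k → ℂ) (PP k) ω) (refl_iso _) H⟩
    have h3 : Module.finrank ℂ (ℂ × ℂ × ℂ) = 3 := by simp
    rw [Module.finrank_prod, h3, Module.finrank_fin_fun]

end Pool.Agent.Results.MP_4c19c5_an.EveryDimension
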